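import Pool.Agent.helper96.SV.SpecA

/-!
# Project sv:, part A, BR1: coordinates of a form of multidegree `(1,..,1,d)`
-/

set_option autoImplicit false

namespace Pool.Agent.SVA

open Polynomial Module Pool.Agent.SV

/-- exponent of `X⟨l,1⟩` -/
def BR1_q {k : ℕ} (n : Fin k → ℕ) (l : Fin k) (m : Var n →₀ ℕ) : ℕ :=
  ∑ j : Fin (n l + 1), if (j : ℕ) = 0 then 0 else m ⟨l, j⟩

theorem BR1_mon {R : Type} [CommRing R] [Algebra ℂ R] {k : ℕ} (n : Fin k → ℕ) (l : Fin k)
    (m : Var n →₀ ℕ) (a : Bx (mm n l))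
    (ha : ∀ (i : {i // i ≠ l}) (j : Fin (n i.1 + 1)), m ⟨i.1, j⟩ = if j = a i then 1 else 0)
    (u : (i : {i // i ≠ l}) → Fin (n i.1 + 1) → R) (s : R) (c : ℂ) :
    MvPolynomial.aeval (fun v : Var n => if h : v.1 = l then (if (v.2 : ℕ) = 0 then 1 else s)
      else u ⟨v.1, h⟩ v.2) (MvPolynomial.monomial m c) =
      algebraMap ℂ R c * ((∏ i, u i (a i)) * s ^ (BR1_q n l m)) := by
  rw [MvPolynomial.aeval_monomial, Finsupp.prod_fintype _ _ (fun _ => pow_zero _),
    Fintype.prod_sigma, Fintype.prod_eq_mul_prod_subtype_ne _ l]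
  congr 1
  rw [mul_comm]
  congr 1
  · refine Finset.prod_congr rfl fun i _ => ?_
    have h1 : ∀ j : Fin (n i.1 + 1), (if h : i.1 = l then (if (j : ℕ) = 0 then (1 : R) else s)
        else u ⟨i.1, h⟩ j) ^ m ⟨i.1, j⟩ = if j = a i then u i j else 1 := by
      intro j
      rw [dif_neg i.2, ha i j]
      split_ifs
      · rw [pow_one]
      · rw [pow_zero]
    rw [Finset.prod_congr rfl fun j _ => h1 j, Finset.prod_ite_eq' Finset.univ (a i) (u i),
      if_pos (Finset.mem_univ _)]
  · unfold BR1_q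
    rw [← Finset.prod_pow_eq_pow_sum]
    refine Finset.prod_congr rfl fun j _ => ?_
    rw [dif_pos rfl]
    split_ifs
    · rw [one_pow, pow_zero]
    · rfl

theorem BR1_two (N : ℕ) (hN : N = 1) (g g' : Fin (N + 1) → ℕ) (h : ∑ j, g j = ∑ j, g' j)
    (h' : ∑ j : Fin (N + 1), (if (j : ℕ) = 0 then 0 else g j) =
      ∑ j : Fin (N + 1), (if (j : ℕ) = 0 then 0 else g' j)) : g = g' := by
  subst hN
  rw [Fin.sum_univ_two, Fin.sum_univ_two] at h h'
  simp at h'
  funext j
  fin_cases j
  · change g 0 = g' 0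
    omega
  · exact h'

theorem BR1_le (N : ℕ) (g : Fin (N + 1) → ℕ) :
    ∑ j : Fin (N + 1), (if (j : ℕ) = 0 then 0 else g j) ≤ ∑ j, g j := by
  refine Finset.sum_le_sum fun j _ => ?_
  split_ifs
  · exact Nat.zero_le _
  · exact le_rfl

theorem BR1_one (N : ℕ) (g : Fin (N + 1) → ℕ) (h : ∑ j, g j = 1) :
    ∃ a : Fin (N + 1), ∀ j, g j = if j = a then 1 else 0 := by
  obtain ⟨a, ha⟩ : ∃ a, g a ≠ 0 := by
    by_contra hne
    push Not at hne
    rw [Finset.sum_congr rfl fun j _ => hne j, Finset.sum_const_zero] at h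
    exact zero_ne_one h
  refine ⟨a, fun j => ?_⟩
  rw [← Finset.add_sum_erase _ _ (Finset.mem_univ a)] at h
  have h1 : g a = 1 := by omega
  have h2 : ∑ x ∈ Finset.univ.erase a, g x = 0 := by omega
  split_ifs with hj
  · rw [hj, h1]
  · exact (Finset.sum_eq_zero_iff.1 h2) j (Finset.mem_erase.2 ⟨hj, Finset.mem_univ _⟩)

theorem BR1_sum {k : ℕ} (n : Fin k → ℕ) (m : Var n →₀ ℕ) (i : Fin k) :
    ∑ v ∈ Finset.univ.filter (fun v : Var n => v.1 = i), m v = ∑ j : Fin (n i + 1), m ⟨i, j⟩ := by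
  rw [Finset.sum_filter, Fintype.sum_sigma, Finset.sum_eq_single i]
  · exact Finset.sum_congr rfl fun j _ => if_pos rfl
  · intro i' _ hi'
    exact Finset.sum_eq_zero fun j _ => if_neg hi'
  · intro h
    exact absurd (Finset.mem_univ _) h

theorem BR1 : BR1_stmt := by
  intro k n d l hl hd f hf
  rw [mem_Sec] at hf
  have hM : ∀ m ∈ f.support, ∀ i, ∑ j : Fin (n i + 1), m ⟨i, j⟩ = d i := by
    intro m hm i
    rw [← BR1_sum]
    exact (hf m (MvPolynomial.mem_support_iff.1 hm)).2 i
  have hA : ∀ m ∈ f.support, ∃ a : Bx (mm n l), ∀ (i : {i // i ≠ l}) (j : Fin (n i.1 + 1)),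
      m ⟨i.1, j⟩ = if j = a i then 1 else 0 := by
    intro m hm
    have h1 : ∀ i : {i // i ≠ l}, ∃ a : Fin (n i.1 + 1), ∀ j,
        m ⟨i.1, j⟩ = if j = a then 1 else 0 := by
      intro i
      exact BR1_one (n i.1) (fun j => m ⟨i.1, j⟩) (by rw [hM m hm i.1, hd i.1 i.2])
    choose a ha using h1
    exact ⟨a, ha⟩
  choose! A hA using hA
  have hfr : ∀ β, fr n l f β = ∑ m ∈ f.support, (algebraMap ℂ ℂ[X] (f.coeff m) *
      ((if A m = β then 1 else 0) * X ^ (BR1_q n l m))) := by
    intro β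
    conv_lhs => rw [f.as_sum]
    unfold fr
    rw [map_sum]
    refine Finset.sum_congr rfl fun m hm => ?_
    rw [BR1_mon n l m (A m) (hA m hm)
      (fun i j => if (j : ℕ) = (β i : ℕ) then (1 : ℂ[X]) else 0) X (f.coeff m)]
    congr 2
    split_ifs with h
    · rw [← h]
      exact Finset.prod_eq_one fun i _ => if_pos rfl
    · obtain ⟨i, hi⟩ : ∃ i, A m i ≠ β i := by
        by_contra hne
        push Not at hne
        exact h (funext hne)
      exact Finset.prod_eq_zero (Finset.mem_univ i) (if_neg fun h' => hi (Fin.ext h'))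
  refine ⟨fun β => ?_, fun y t => ?_, fun h0 => ?_⟩
  · rw [hfr, ← Polynomial.mem_degreeLT]
    refine Submodule.sum_mem _ fun m hm => ?_
    rw [Polynomial.mem_degreeLT]
    split_ifs with h
    · rw [one_mul]
      refine lt_of_le_of_lt (Polynomial.degree_C_mul_X_pow_le _ _) ?_
      have h1 : BR1_q n l m ≤ d l := by
        rw [← hM m hm l]
        exact BR1_le (n l) (fun j => m ⟨l, j⟩)
      exact_mod_cast Nat.lt_succ_of_le h1
    · rw [zero_mul, mul_zero, Polynomial.degree_zero]
      exact WithBot.bot_lt_coe _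
  · have h1 : MvPolynomial.eval (toPt n l (y, t)) f = ∑ m ∈ f.support,
        f.coeff m * (ten y (A m) * t ^ (BR1_q n l m)) := by
      conv_lhs => rw [f.as_sum]
      rw [map_sum]
      refine Finset.sum_congr rfl fun m hm => ?_
      have h2 := BR1_mon n l m (A m) (hA m hm) (fun i j => y i j) t (f.coeff m)
      exact h2
    rw [h1]
    have h3 : ∀ β, (fr n l f β).eval t * ten y β = ∑ m ∈ f.support,
        (if A m = β then f.coeff m * (ten y (A m) * t ^ (BR1_q n l m)) else 0) := by
      intro β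
      rw [hfr, Polynomial.eval_finsetSum, Finset.sum_mul]
      refine Finset.sum_congr rfl fun m _ => ?_
      split_ifs with h
      · rw [← h, Polynomial.eval_mul, Polynomial.eval_mul, Polynomial.eval_one,
          Polynomial.eval_pow, Polynomial.eval_X, Polynomial.algebraMap_apply,
          Polynomial.eval_C, Algebra.algebraMap_self, RingHom.id_apply]
        ring
      · rw [zero_mul, mul_zero, Polynomial.eval_zero, zero_mul]
    rw [Finset.sum_congr rfl fun β _ => h3 β, Finset.sum_comm]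
    refine Finset.sum_congr rfl fun m _ => ?_
    rw [Finset.sum_ite_eq Finset.univ (A m), if_pos (Finset.mem_univ _)]
  · by_contra hne
    obtain ⟨m, hm⟩ := MvPolynomial.support_nonempty.2 hne
    have h1 : (fr n l f (A m)).coeff (BR1_q n l m) = (0 : ℂ[X]).coeff (BR1_q n l m) := by
      rw [h0 (A m)]
    rw [hfr, Polynomial.finsetSum_coeff, Finset.sum_eq_single m, if_pos rfl, one_mul,
      Polynomial.algebraMap_apply, Polynomial.coeff_C_mul, Polynomial.coeff_X_pow, if_pos rfl,
      mul_one, Polynomial.coeff_zero] at h1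
    · exact (MvPolynomial.mem_support_iff.1 hm) h1
    · intro m' hm' hmm
      split_ifs with h
      · rw [one_mul, Polynomial.algebraMap_apply, Polynomial.coeff_C_mul, Polynomial.coeff_X_pow]
        split_ifs with hq
        · exfalso
          apply hmm
          ext ⟨i, j⟩
          by_cases hi : i = l
          · subst hi
            have h2 := BR1_two (n i) hl (fun j => m' ⟨i, j⟩) (fun j => m ⟨i, j⟩)
              (by rw [hM m' hm' i, hM m hm i]) hq.symm
            exact congrFun h2 j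
          · rw [hA m' hm' ⟨i, hi⟩ j, hA m hm ⟨i, hi⟩ j, h]
        · rw [mul_zero]
      · rw [zero_mul, mul_zero, Polynomial.coeff_zero]
    · intro h
      exact absurd hm h

end Pool.Agent.SVA
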